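import Pool.Agent.Run7.h285.L.Stm
import Pool.Agent.Run7.h794.MK.Sqf

/-!
# Project LIO (helper285), piece SQF: squarefree numbers in shifted intervals (helper803)
-/

set_option autoImplicit false
set_option linter.all false

namespace Run7.h803.L
open Finset Filter Topology

/-- signed counting function -/
noncomputable def sg (q : ℕ → ℝ) : ℤ → ℝ
  | Int.ofNat n => ∑ i ∈ Icc 1 n, q i
  | Int.negSucc n => -∑ i ∈ Icc 1 n, q i

lemma sg_step (q : ℕ → ℝ) (h0 : q 0 = 0) (t : ℤ) : sg q (t + 1) = sg q t + q (t + 1).natAbs := by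
  rcases t with n | n
  · have e : Int.ofNat n + 1 = Int.ofNat (n + 1) := by simp
    rw [e]
    show ∑ i ∈ Icc 1 (n + 1), q i = ∑ i ∈ Icc 1 n, q i + q (n + 1)
    rw [Finset.sum_Icc_succ_top (by omega)]
  · rcases n with _ | n
    · have e : Int.negSucc 0 + 1 = Int.ofNat 0 := by simp
      rw [e]
      show ∑ i ∈ Icc 1 0, q i = -∑ i ∈ Icc 1 0, q i + q 0
      simp [h0]
    · have e : Int.negSucc (n + 1) + 1 = Int.negSucc n := by omega
      rw [e]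
      show -∑ i ∈ Icc 1 n, q i = -∑ i ∈ Icc 1 (n + 1), q i + q (n + 1)
      rw [Finset.sum_Icc_succ_top (by omega)]
      ring

lemma sg_range (q : ℕ → ℝ) (h0 : q 0 = 0) (s : ℤ) (n : ℕ) :
    ∑ i ∈ range n, q (s + 1 + i).natAbs = sg q (s + n) - sg q s := by
  induction n with
  | zero => simp
  | succ n ih =>
    rw [Finset.sum_range_succ, ih]
    have h1 := sg_step q h0 (s + n)
    have e1 : s + ((n + 1 : ℕ) : ℤ) = s + n + 1 := by push_cast; ring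
    have e2 : s + 1 + (n : ℤ) = s + n + 1 := by ring
    rw [e1, e2, h1]
    ring

lemma sg_Icc (q : ℕ → ℝ) (h0 : q 0 = 0) (v : ℤ) (X : ℕ) :
    ∑ c ∈ Icc (-(X : ℤ)) X, q (v + c).natAbs = sg q (v + X) - sg q (v - X - 1) := by
  have h1 := sg_range q h0 (v - X - 1) (2 * X + 1)
  have e1 : v - X - 1 + ((2 * X + 1 : ℕ) : ℤ) = v + X := by push_cast; ring
  rw [e1] at h1
  rw [← h1]
  refine Finset.sum_nbij' (fun c => (c + X).toNat) (fun i => (i : ℤ) - X) ?_ ?_ ?_ ?_ ?_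
  · intro c hc
    rw [mem_Icc] at hc
    rw [mem_range]
    omega
  · intro i hi
    rw [mem_range] at hi
    rw [mem_Icc]
    omega
  · intro c hc
    rw [mem_Icc] at hc
    omega
  · intro i hi
    omega
  · intro c hc
    rw [mem_Icc] at hc
    congr 2
    omega

lemma sg_bound (q : ℕ → ℝ) {κ : ℝ} (hκ0 : 0 ≤ κ) (hκ1 : κ ≤ 1)
    (h : ∀ v : ℕ, |∑ n ∈ Icc 1 v, q n - κ * v| ≤ 6 * √v) (t : ℤ) :
    |sg q t - κ * t| ≤ 6 * √(t.natAbs : ℝ) + 1 := by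
  rcases t with n | n
  · have h1 := h n
    show |∑ i ∈ Icc 1 n, q i - κ * ((n : ℤ) : ℝ)| ≤ 6 * √((n : ℕ) : ℝ) + 1
    rw [Int.cast_natCast]
    linarith
  · have h1 := h n
    show |-∑ i ∈ Icc 1 n, q i - κ * ((Int.negSucc n : ℤ) : ℝ)| ≤ 6 * √((n + 1 : ℕ) : ℝ) + 1
    rw [Int.cast_negSucc]
    have h2 : √(n : ℝ) ≤ √((n + 1 : ℕ) : ℝ) := Real.sqrt_le_sqrt (by push_cast; linarith)
    have e : -∑ i ∈ Icc 1 n, q i - κ * -((n + 1 : ℕ) : ℝ) =
      -(∑ i ∈ Icc 1 n, q i - κ * n) + κ := by push_cast; ring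
    rw [e]
    refine (abs_add_le _ _).trans ?_
    rw [abs_neg, abs_of_nonneg hκ0]
    linarith

lemma large (ε : ℝ) (C : ℕ) (hε : 0 < ε) : ∃ X₀ : ℕ, ∀ X : ℕ, X₀ ≤ X →
    12 * √(X * Real.log X ^ C + X + 1) + 3 ≤ ε * X := by
  have h1 := (Real.isLittleO_pow_log_id_atTop (n := C)).bound (c := (ε / 24) ^ 2 / 2) (by positivity)
  have h2 := h1.and ((eventually_ge_atTop (max 1 (6 / ε))).and
    (eventually_ge_atTop (4 / (ε / 24) ^ 2)))
  obtain ⟨x0, hx0⟩ := eventually_atTop.1 h2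
  refine ⟨⌈x0⌉₊, fun X hX => ?_⟩
  obtain ⟨h3, h4, h5⟩ := hx0 (X : ℝ) ((Nat.le_ceil x0).trans (by exact_mod_cast hX))
  have hX1 : (1 : ℝ) ≤ X := (le_max_left _ _).trans h4
  have hX6 : 6 / ε ≤ X := (le_max_right _ _).trans h4
  have hl : 0 ≤ Real.log X := Real.log_nonneg hX1
  simp only [id, Real.norm_eq_abs] at h3
  rw [abs_of_nonneg (pow_nonneg hl C), abs_of_nonneg (by linarith : (0 : ℝ) ≤ X)] at h3
  have h6 : X * Real.log X ^ C + X + 1 ≤ (ε / 24 * X) ^ 2 := by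
    have h7 : (X : ℝ) * Real.log X ^ C ≤ (ε / 24) ^ 2 / 2 * X ^ 2 := by
      calc (X : ℝ) * Real.log X ^ C ≤ X * ((ε / 24) ^ 2 / 2 * X) :=
            mul_le_mul_of_nonneg_left h3 (by linarith)
        _ = _ := by ring
    have h8 : 4 ≤ (ε / 24) ^ 2 * X := by
      rw [div_le_iff₀ (by positivity)] at h5
      linarith
    nlinarith
  have h9 : √(X * Real.log X ^ C + X + 1) ≤ ε / 24 * X := by
    rw [Real.sqrt_le_left (by positivity)]
    exact h6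
  have h10 : 6 ≤ ε * X := by
    rw [div_le_iff₀ hε] at hX6
    linarith
  linarith

theorem sqf_aux (mob : ℕ → ℝ) (h0 : mob 0 = 0)
    (h : ∀ v : ℕ, |∑ n ∈ Icc 1 v, mob n ^ 2 - 6 / Real.pi ^ 2 * v| ≤ 6 * √v) :
    ∀ (ε : ℝ) (C : ℕ), 0 < ε → ∃ X₀ : ℕ, ∀ X : ℕ, X₀ ≤ X → ∀ v : ℤ, (v.natAbs : ℝ) ≤ X * Real.log X ^ C →
    |∑ c ∈ Icc (-(X : ℤ)) X, mob (v + c).natAbs ^ 2 - 12 / Real.pi ^ 2 * X| ≤ ε * X := by
  intro ε C hε
  obtain ⟨X₀, hX₀⟩ := large ε C hε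
  refine ⟨X₀, fun X hX v hv => ?_⟩
  have hX1 := hX₀ X hX
  set κ : ℝ := 6 / Real.pi ^ 2 with hκ
  have hπ : 3 < Real.pi := Real.pi_gt_three
  have hκ0 : 0 ≤ κ := by positivity
  have hκ1 : κ ≤ 1 := by
    rw [hκ, div_le_one (by positivity)]
    nlinarith
  have hq0 : (fun n => mob n ^ 2) 0 = 0 := by simp [h0]
  have h1 := sg_Icc (fun n => mob n ^ 2) hq0 v X
  rw [h1]
  have b1 := sg_bound (fun n => mob n ^ 2) hκ0 hκ1 h (v + X)
  have b2 := sg_bound (fun n => mob n ^ 2) hκ0 hκ1 h (v - X - 1)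
  have n1 : (((v + X : ℤ).natAbs : ℕ) : ℝ) ≤ X * Real.log X ^ C + X + 1 := by
    have : (v + X : ℤ).natAbs ≤ v.natAbs + X + 1 := by omega
    have h2 : (((v + X : ℤ).natAbs : ℕ) : ℝ) ≤ v.natAbs + X + 1 := by exact_mod_cast this
    linarith
  have n2 : (((v - X - 1 : ℤ).natAbs : ℕ) : ℝ) ≤ X * Real.log X ^ C + X + 1 := by
    have : (v - X - 1 : ℤ).natAbs ≤ v.natAbs + X + 1 := by omega
    have h2 : (((v - X - 1 : ℤ).natAbs : ℕ) : ℝ) ≤ v.natAbs + X + 1 := by exact_mod_cast this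
    linarith
  have s1 := Real.sqrt_le_sqrt n1
  have s2 := Real.sqrt_le_sqrt n2
  have e : sg (fun n => mob n ^ 2) (v + X) - sg (fun n => mob n ^ 2) (v - X - 1) -
      12 / Real.pi ^ 2 * X = (sg (fun n => mob n ^ 2) (v + X) - κ * ((v + X : ℤ) : ℝ)) -
      (sg (fun n => mob n ^ 2) (v - X - 1) - κ * ((v - X - 1 : ℤ) : ℝ)) + κ := by
    rw [hκ]
    push_cast
    ring
  rw [e]
  refine (abs_add_le _ _).trans ?_
  refine (add_le_add_left (abs_sub _ _) _).trans ?_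
  rw [abs_of_nonneg hκ0]
  linarith


/-- **SQF** -/
theorem sqf : Run7.h285.L.S_SQF := by
  intro ε C hε
  obtain ⟨X₀, h⟩ := sqf_aux Pool.Agent.Run7.h794.MK.mob (by unfold Pool.Agent.Run7.h794.MK.mob; simp)
    Pool.Agent.Run7.h794.MK.sqf_count ε C hε
  exact ⟨X₀, fun X hX v hv => h X hX v hv⟩

end Run7.h803.L
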